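import Pool.Agent.Helper78.KD.Defs

/-!
# KD-K3: the tree of a family
-/

set_option autoImplicit false

namespace Pool.Agent.Helper53.KD

open MeasureTheory Set Filter Topology
open Pool.Agent.Helper78.KD

variable {u v : ℕ → ℝ → ℝ} {a b β₁ β₂ : ℝ}

private lemma contOn (hF : Fam u v a b β₁ β₂) (n : ℕ) : ContinuousOn (u n) (Icc a b) :=
  fun x hx => (hF.deriv n x hx).continuousAt.continuousWithinAt

/-- mean value theorem -/
private lemma mvt (hF : Fam u v a b β₁ β₂) (n : ℕ) {p q : ℝ} (hp : p ∈ Icc a b) (hq : q ∈ Icc a b) (hpq : p < q) :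
    ∃ c ∈ Icc a b, u n q - u n p = v n c * (q - p) := by
  have hsub : Icc p q ⊆ Icc a b := Icc_subset_Icc hp.1 hq.2
  obtain ⟨c, hc, h⟩ := exists_hasDerivAt_eq_slope (u n) (v n) hpq ((contOn hF n).mono hsub)
    (fun x hx => hF.deriv n x (hsub (Ioo_subset_Icc_self hx)))
  refine ⟨c, hsub (Ioo_subset_Icc_self hc), ?_⟩
  rw [h, div_mul_cancel₀]
  linarith

private lemma sm (hF : Fam u v a b β₁ β₂) (n : ℕ) : StrictMonoOn (u n) (Icc a b) := by
  intro p hp q hq hpq
  obtain ⟨c, hc, h⟩ := mvt hF n hp hq hpq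
  have : 0 < v n c * (q - p) := mul_pos (hF.pos n c hc) (by linarith)
  linarith

private lemma vpow (hF : Fam u v a b β₁ β₂) (n : ℕ) {x : ℝ} (hx : x ∈ Icc a b) :
    β₁ ^ n * v 0 x ≤ v n x ∧ v n x ≤ β₂ ^ n * v 0 x := by
  have h1 : 0 < β₁ := by linarith [hF.hβ]
  have h2 : 0 < β₂ := by linarith [hF.hβ']
  induction n with
  | zero => simp
  | succ n ih =>
    obtain ⟨g1, g2⟩ := hF.growth n x hx
    constructor
    · calc β₁ ^ (n + 1) * v 0 x = β₁ * (β₁ ^ n * v 0 x) := by ring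
        _ ≤ β₁ * v n x := mul_le_mul_of_nonneg_left ih.1 h1.le
        _ ≤ _ := g1
    · calc v (n + 1) x ≤ β₂ * v n x := g2
        _ ≤ β₂ * (β₂ ^ n * v 0 x) := mul_le_mul_of_nonneg_left ih.2 h2.le
        _ = _ := by ring

/-- the increments grow -/
private lemma incr_succ (hF : Fam u v a b β₁ β₂) (n : ℕ) {p q : ℝ} (hp : p ∈ Icc a b) (hq : q ∈ Icc a b) (hpq : p < q) :
    u n q - u n p ≤ u (n + 1) q - u (n + 1) p := by
  have hsub : Icc p q ⊆ Icc a b := Icc_subset_Icc hp.1 hq.2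
  have hmono : MonotoneOn (fun x => u (n + 1) x - u n x) (Icc p q) := by
    refine monotoneOn_of_deriv_nonneg (convex_Icc p q) (((contOn hF (n + 1)).sub (contOn hF n)).mono hsub) ?_ ?_
    · intro x hx
      rw [interior_Icc] at hx
      have hx' := hsub (Ioo_subset_Icc_self hx)
      exact ((hF.deriv (n + 1) x hx').sub (hF.deriv n x hx')).differentiableAt.differentiableWithinAt
    · intro x hx
      rw [interior_Icc] at hx
      have hx' := hsub (Ioo_subset_Icc_self hx)
      have hd := ((hF.deriv (n + 1) x hx').sub (hF.deriv n x hx')).deriv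
      have e : (fun x => u (n + 1) x - u n x) = u (n + 1) - u n := rfl
      rw [e, hd]
      have h1 := (hF.growth n x hx').1
      have h2 := hF.pos n x hx'
      have h3 := hF.hβ
      nlinarith
  have := hmono (left_mem_Icc.mpr hpq.le) (right_mem_Icc.mpr hpq.le) hpq.le
  simp only at this
  linarith

private lemma incr_add (hF : Fam u v a b β₁ β₂) (n m : ℕ) {p q : ℝ} (hp : p ∈ Icc a b) (hq : q ∈ Icc a b) (hpq : p < q) :
    u n q - u n p ≤ u (n + m) q - u (n + m) p := by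
  induction m with
  | zero => simp
  | succ m ih => exact ih.trans (incr_succ hF (n + m) hp hq hpq)

/-- splitting one cell -/
private lemma split1 (hF : Fam u v a b β₁ β₂) (n : ℕ) {p q : ℝ} (hp : p ∈ Icc a b) (hq : q ∈ Icc a b) (hpq : p < q)
    (h1 : 1 ≤ u n q - u n p) :
    ∃ (M : ℕ) (s : ℕ → ℝ), 1 ≤ M ∧ s 0 = p ∧ s M = q ∧ (∀ i < M, s i < s (i + 1)) ∧
      ∀ i < M, 1 ≤ u n (s (i + 1)) - u n (s i) ∧ u n (s (i + 1)) - u n (s i) ≤ 2 := by
  set D := u n q - u n p with hD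
  set M := ⌊D⌋₊ with hM
  have hM1 : 1 ≤ M := by rw [hM, Nat.one_le_floor_iff]; exact h1
  have hMR : (1:ℝ) ≤ M := by exact_mod_cast hM1
  have hMD : (M:ℝ) ≤ D := Nat.floor_le (by linarith)
  have hDM : D < M + 1 := Nat.lt_floor_add_one D
  have hsub : Icc p q ⊆ Icc a b := Icc_subset_Icc hp.1 hq.2
  have hM0 : (0:ℝ) < M := by linarith
  have hex : ∀ j : ℕ, ∃ s : ℝ, j ≤ M → s ∈ Icc p q ∧ u n s = u n p + j * (D / M) := by
    intro j
    by_cases hj : j ≤ M
    · have hjR : (j:ℝ) ≤ M := by exact_mod_cast hj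
      have hmem : u n p + j * (D / M) ∈ Icc (u n p) (u n q) := by
        constructor
        · have : 0 ≤ (j:ℝ) * (D / M) := by positivity
          linarith
        · have : (j:ℝ) * (D / M) ≤ M * (D / M) := mul_le_mul_of_nonneg_right hjR (by positivity)
          rw [mul_div_cancel₀ _ hM0.ne'] at this
          linarith
      obtain ⟨s, hs, hs2⟩ := intermediate_value_Icc hpq.le ((contOn hF n).mono hsub) hmem
      exact ⟨s, fun _ => ⟨hs, hs2⟩⟩
    · exact ⟨0, fun h => absurd h hj⟩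
  choose s hs using hex
  have hinj := (sm hF n).injOn
  refine ⟨M, s, hM1, ?_, ?_, ?_, ?_⟩
  · obtain ⟨h2, h3⟩ := hs 0 (Nat.zero_le _)
    refine hinj (hsub h2) hp ?_
    rw [h3]; simp
  · obtain ⟨h2, h3⟩ := hs M le_rfl
    refine hinj (hsub h2) hq ?_
    rw [h3, mul_div_cancel₀ _ hM0.ne']
    linarith
  · intro i hi
    obtain ⟨h2, h3⟩ := hs i hi.le
    obtain ⟨h4, h5⟩ := hs (i + 1) hi
    rw [← (sm hF n).lt_iff_lt (hsub h2) (hsub h4), h3, h5]
    push_cast
    have : 0 < D / M := by positivity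
    linarith
  · intro i hi
    obtain ⟨h2, h3⟩ := hs i hi.le
    obtain ⟨h4, h5⟩ := hs (i + 1) hi
    have e : u n (s (i + 1)) - u n (s i) = D / M := by
      rw [h3, h5]
      push_cast
      ring
    rw [e, le_div_iff₀ hM0, div_le_iff₀ hM0]
    constructor <;> linarith

/-- splitting the first `m` cells -/
private lemma splitm (hF : Fam u v a b β₁ β₂) (n : ℕ) (t : ℕ → ℝ) (N : ℕ) (hmem : ∀ i ≤ N, t i ∈ Icc a b)
    (hlt : ∀ i < N, t i < t (i + 1)) (h1 : ∀ i < N, 1 ≤ u n (t (i + 1)) - u n (t i)) :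
    ∀ m ≤ N, ∃ (N' : ℕ) (t' : ℕ → ℝ) (J : ℕ → ℕ), J 0 = 0 ∧ J m = N' ∧ (∀ i < m, J i < J (i + 1)) ∧
      (∀ i ≤ m, t' (J i) = t i) ∧ (∀ j < N', t' j < t' (j + 1)) ∧
      ∀ j < N', 1 ≤ u n (t' (j + 1)) - u n (t' j) ∧ u n (t' (j + 1)) - u n (t' j) ≤ 2 := by
  intro m
  induction m with
  | zero =>
    intro _
    refine ⟨0, fun _ => t 0, fun _ => 0, rfl, rfl, ?_, ?_, ?_, ?_⟩
    · intro i hi; omega
    · intro i hi
      have : i = 0 := by omega
      rw [this]
    · intro i hi; omega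
    · intro i hi; omega
  | succ m ih =>
    intro hm
    obtain ⟨N', t', J, hJ0, hJm, hJlt, href, htlt, htin⟩ := ih (by omega)
    obtain ⟨M, s, hM1, hs0, hsM, hslt, hsin⟩ := split1 hF n (hmem m (by omega)) (hmem (m + 1) hm) (hlt m (by omega))
      (h1 m (by omega))
    have hJle : ∀ i ≤ m, J i ≤ N' := by
      have hmono : ∀ k i, i + k ≤ m → J i ≤ J (i + k) := by
        intro k
        induction k with
        | zero => intro i _; exact le_rfl
        | succ k ihk =>
          intro i hik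
          exact (ihk i (by omega)).trans (hJlt (i + k) (by omega)).le
      intro i hi
      have := hmono (m - i) i (by omega)
      rw [show i + (m - i) = m by omega, hJm] at this
      exact this
    have hend : t' N' = s 0 := by
      rw [hs0, ← hJm, href m le_rfl]
    set t'' : ℕ → ℝ := fun j => if j ≤ N' then t' j else s (j - N') with ht''
    have e1 : ∀ j ≤ N', t'' j = t' j := fun j hj => by simp only [ht'']; rw [if_pos hj]
    have e2 : ∀ j, t'' (N' + j) = s j := by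
      intro j
      simp only [ht'']
      split_ifs with h
      · have : j = 0 := by omega
        rw [this, add_zero, hend]
      · rw [show N' + j - N' = j by omega]
    have hstep : ∀ j < N' + M, (j < N' ∧ t'' j = t' j ∧ t'' (j + 1) = t' (j + 1)) ∨
        ∃ i < M, t'' j = s i ∧ t'' (j + 1) = s (i + 1) := by
      intro j hj
      by_cases h : j < N'
      · exact Or.inl ⟨h, e1 j h.le, e1 (j + 1) h⟩
      · refine Or.inr ⟨j - N', by omega, ?_, ?_⟩
        · rw [← e2, show N' + (j - N') = j by omega]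
        · rw [← e2, show N' + (j - N' + 1) = j + 1 by omega]
    refine ⟨N' + M, t'', fun i => if i ≤ m then J i else N' + M, ?_, ?_, ?_, ?_, ?_, ?_⟩
    · simp [hJ0]
    · simp
    · intro i hi
      show (if i ≤ m then J i else N' + M) < (if i + 1 ≤ m then J (i + 1) else N' + M)
      rw [if_pos (by omega : i ≤ m)]
      by_cases h : i + 1 ≤ m
      · rw [if_pos h]; exact hJlt i (by omega)
      · rw [if_neg h]
        have := hJle i (by omega)
        omega
    · intro i hi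
      by_cases h : i ≤ m
      · simp only [if_pos h]
        rw [e1 _ (hJle i h), href i h]
      · simp only [if_neg h]
        rw [e2, hsM, show i = m + 1 by omega]
    · intro j hj
      rcases hstep j hj with ⟨h, g1, g2⟩ | ⟨i, hi, g1, g2⟩
      · rw [g1, g2]; exact htlt j h
      · rw [g1, g2]; exact hslt i hi
    · intro j hj
      rcases hstep j hj with ⟨h, g1, g2⟩ | ⟨i, hi, g1, g2⟩
      · rw [g1, g2]; exact htin j h
      · rw [g1, g2]; exact hsin i hi

/-- a level of the tree -/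
private structure Lev (u : ℕ → ℝ → ℝ) (a b : ℝ) (L k : ℕ) where
  N : ℕ
  t : ℕ → ℝ
  ta : t 0 = a
  tb : t N = b
  lt : ∀ i < N, t i < t (i + 1)
  inc : ∀ i < N, 1 ≤ u (k * L) (t (i + 1)) - u (k * L) (t i) ∧ u (k * L) (t (i + 1)) - u (k * L) (t i) ≤ 2

private lemma mono_le {N : ℕ} {t : ℕ → ℝ} (lt : ∀ i < N, t i < t (i + 1)) : ∀ k i, i + k ≤ N → t i ≤ t (i + k) := by
  intro k
  induction k with
  | zero => intro i _; exact le_rfl
  | succ k ihk =>
    intro i hik
    exact (ihk i (by omega)).trans (lt (i + k) (by omega)).le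

private lemma Lev.mem {L k : ℕ} (X : Lev u a b L k) : ∀ i ≤ X.N, X.t i ∈ Icc a b := by
  intro i hi
  have h1 := mono_le X.lt i 0 (by omega)
  have h2 := mono_le X.lt (X.N - i) i (by omega)
  rw [zero_add, X.ta] at h1
  rw [show i + (X.N - i) = X.N by omega, X.tb] at h2
  exact ⟨h1, h2⟩

private lemma next (hF : Fam u v a b β₁ β₂) {L k : ℕ} (X : Lev u a b L k) : ∃ (Y : Lev u a b L (k + 1)) (J : ℕ → ℕ),
    J 0 = 0 ∧ J X.N = Y.N ∧ (∀ i < X.N, J i < J (i + 1)) ∧ ∀ i ≤ X.N, Y.t (J i) = X.t i := by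
  have e : (k + 1) * L = k * L + L := Nat.succ_mul k L
  obtain ⟨N', t', J, hJ0, hJm, hJlt, href, htlt, htin⟩ := splitm hF ((k + 1) * L) X.t X.N X.mem X.lt
    (fun i hi => by
      rw [e]
      exact (X.inc i hi).1.trans (incr_add hF (k * L) L (X.mem i hi.le) (X.mem (i + 1) hi) (X.lt i hi))) X.N le_rfl
  refine ⟨⟨N', t', ?_, ?_, htlt, htin⟩, J, hJ0, hJm, hJlt, href⟩
  · rw [← hJ0, href 0 (Nat.zero_le _), X.ta]
  · rw [← hJm, href X.N le_rfl, X.tb]

private noncomputable def levs (hF : Fam u v a b β₁ β₂) (L : ℕ) : (k : ℕ) → Lev u a b L k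
  | 0 => ⟨1, fun i => if i = 0 then a else b, by simp, by simp, fun i hi => by
      have : i = 0 := by omega
      subst this
      simpa using hF.hab, fun i hi => by
      have : i = 0 := by omega
      subst this
      simpa using hF.root⟩
  | k + 1 => (next hF (levs hF L k)).choose

private noncomputable def levJ (hF : Fam u v a b β₁ β₂) (L k : ℕ) : ℕ → ℕ := (next hF (levs hF L k)).choose_spec.choose

private lemma levJ_spec (hF : Fam u v a b β₁ β₂) (L k : ℕ) : levJ hF L k 0 = 0 ∧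
    levJ hF L k (levs hF L k).N = (levs hF L (k + 1)).N ∧ (∀ i < (levs hF L k).N, levJ hF L k i < levJ hF L k (i + 1)) ∧
    ∀ i ≤ (levs hF L k).N, (levs hF L (k + 1)).t (levJ hF L k i) = (levs hF L k).t i :=
  (next hF (levs hF L k)).choose_spec.choose_spec

private lemma cover {N : ℕ} {t : ℕ → ℝ} {x : ℝ} (h0 : t 0 ≤ x) : ∀ m ≤ N, x ≤ t m → 1 ≤ m → ∃ i < N, t i ≤ x ∧ x ≤ t (i + 1) := by
  intro m
  induction m with
  | zero => intro _ _ h; omega
  | succ m ih =>
    intro hm hx _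
    by_cases h : x ≤ t m
    · rcases Nat.eq_zero_or_pos m with h2 | h2
      · subst h2
        exact ⟨0, by omega, h0, hx⟩
      · exact ih (by omega) h h2
    · exact ⟨m, by omega, (not_le.mp h).le, hx⟩

theorem exists_tree (hF : Fam u v a b β₁ β₂) (L : ℕ) (hL : 1 ≤ L) :
    ∃ T : Tr, T.t 0 0 = a ∧ T.t 0 1 = b ∧ (∀ k i, i ≤ T.N k → T.t k i ∈ Icc a b) ∧
      (∀ x ∈ Icc a b, ∀ k, ∃ i < T.N k, x ∈ T.cell k i) ∧
      (∀ k i, i < T.N k → 1 ≤ u (k * L) (T.t k (i + 1)) - u (k * L) (T.t k i) ∧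
        u (k * L) (T.t k (i + 1)) - u (k * L) (T.t k i) ≤ 2) := by
  refine ⟨⟨fun k => (levs hF L k).N, fun k => (levs hF L k).t, fun k => levJ hF L k, rfl,
    fun k i hi => (levs hF L k).lt i hi, fun k => (levJ_spec hF L k).1, fun k => (levJ_spec hF L k).2.1,
    fun k i hi => (levJ_spec hF L k).2.2.1 i hi, fun k i hi => (levJ_spec hF L k).2.2.2 i hi⟩, ?_, ?_, ?_, ?_, ?_⟩
  · exact (levs hF L 0).ta
  · exact (levs hF L 0).tb
  · exact fun k i hi => (levs hF L k).mem i hi
  · intro x hx k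
    have h0 : (levs hF L k).t 0 ≤ x := by rw [(levs hF L k).ta]; exact hx.1
    have h1 : x ≤ (levs hF L k).t (levs hF L k).N := by rw [(levs hF L k).tb]; exact hx.2
    have h2 : 1 ≤ (levs hF L k).N := by
      by_contra h
      have h3 : (levs hF L k).N = 0 := by omega
      have h4 := (levs hF L k).tb
      rw [h3, (levs hF L k).ta] at h4
      exact absurd h4 hF.hab.ne
    obtain ⟨i, hi, h5, h6⟩ := cover h0 _ le_rfl h1 h2
    exact ⟨i, hi, h5, h6⟩
  · exact fun k i hi => (levs hF L k).inc i hi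

/-- sizes of intervals -/
theorem size (hF : Fam u v a b β₁ β₂) : ∃ c C : ℝ, 0 < c ∧ 0 < C ∧
    ∀ n : ℕ, ∀ p ∈ Icc a b, ∀ q ∈ Icc a b, p < q → 1 ≤ u n q - u n p → u n q - u n p ≤ 2 →
      c * Real.exp (-(n * Real.log β₂)) ≤ q - p ∧ q - p ≤ C * Real.exp (-(n * Real.log β₁)) := by
  have ha : a ∈ Icc a b := left_mem_Icc.mpr hF.hab.le
  have hb : b ∈ Icc a b := right_mem_Icc.mpr hF.hab.le
  have hva := hF.pos 0 a ha
  have hvb := hF.pos 0 b hb
  have hβ1 : 0 < β₁ := by linarith [hF.hβ]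
  have hβ2 : 0 < β₂ := by linarith [hF.hβ, hF.hβ']
  refine ⟨1 / v 0 b, 2 / v 0 a, by positivity, by positivity, ?_⟩
  intro n p hp q hq hpq h1 h2
  obtain ⟨c, hc, h⟩ := mvt hF n hp hq hpq
  obtain ⟨g1, g2⟩ := vpow hF n hc
  have m1 := hF.mono 0 ha hc hc.1
  have m2 := hF.mono 0 hc hb hc.2
  have e1 : Real.exp (-(n * Real.log β₂)) = 1 / β₂ ^ n := by
    rw [Real.exp_neg, Real.exp_nat_mul, Real.exp_log hβ2, one_div]
  have e2 : Real.exp (-(n * Real.log β₁)) = 1 / β₁ ^ n := by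
    rw [Real.exp_neg, Real.exp_nat_mul, Real.exp_log hβ1, one_div]
  have hd : 0 < q - p := by linarith
  have p1 : 0 < β₁ ^ n := by positivity
  have p2 : 0 < β₂ ^ n := by positivity
  rw [e1, e2]
  constructor
  · rw [one_div_mul_one_div, div_le_iff₀ (by positivity)]
    calc (1:ℝ) ≤ v n c * (q - p) := by linarith
      _ ≤ (β₂ ^ n * v 0 b) * (q - p) := by
        apply mul_le_mul_of_nonneg_right _ hd.le
        exact g2.trans (mul_le_mul_of_nonneg_left m2 p2.le)
      _ = (q - p) * (v 0 b * β₂ ^ n) := by ring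
  · rw [div_mul_div_comm, mul_one, le_div_iff₀ (by positivity)]
    calc (q - p) * (v 0 a * β₁ ^ n) = (β₁ ^ n * v 0 a) * (q - p) := by ring
      _ ≤ v n c * (q - p) := by
        apply mul_le_mul_of_nonneg_right _ hd.le
        exact (mul_le_mul_of_nonneg_left m1 p1.le).trans g1
      _ ≤ 2 := by linarith

end Pool.Agent.Helper53.KD
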