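import Mathlib

/-!
# KD-K6: exponential moments of a bounded variable with small parameter
-/

set_option autoImplicit false

namespace Pool.Agent.Helper53.KD

private lemma exp3 {x : ℝ} (hx : |x| ≤ 1) : |Real.exp x - (1 + x + x ^ 2 / 2)| ≤ 2 / 9 * |x| ^ 3 := by
  have h := Real.exp_bound hx (n := 3) (by norm_num)
  simp only [Finset.sum_range_succ, Finset.sum_range_zero] at h
  norm_num [Nat.factorial] at h
  calc |Real.exp x - (1 + x + x ^ 2 / 2)| ≤ |x| ^ 3 * (2 / 9) := h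
    _ = _ := by ring

/-- abstract estimate -/
theorem exp_moment {s : Finset ℕ} {w X : ℕ → ℝ} {W B Q ε L θ : ℝ} (hw : ∀ j ∈ s, 0 ≤ w j) (hW : ∑ j ∈ s, w j = W) (hW0 : 0 < W)
    (hmean : ∑ j ∈ s, w j * X j = 0) (hB : ∀ j ∈ s, |X j| ≤ B) (hQ0 : 0 ≤ Q) (hQ1 : Q ≤ 1) (hε : 0 < ε) (hε1 : ε ≤ 1)
    (hL : 1 ≤ L) (hvar : |∑ j ∈ s, w j * X j ^ 2 - Q * L * W| ≤ ε * L * W) (hθ : |θ| * B ≤ ε / 8)
    (hBL : L ≤ B) :
    W * Real.exp ((Q - 2 * ε) * θ ^ 2 * L / 2) ≤ ∑ j ∈ s, w j * Real.exp (θ * X j) ∧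
    ∑ j ∈ s, w j * Real.exp (θ * X j) ≤ W * Real.exp ((Q + 2 * ε) * θ ^ 2 * L / 2) := by
  have hB1 : 1 ≤ B := hL.trans hBL
  set V := ∑ j ∈ s, w j * X j ^ 2 with hV
  obtain ⟨hV1, hV2⟩ := abs_le.mp hvar
  have hLW : 0 < L * W := by positivity
  have hVle : V ≤ 2 * (L * W) := by nlinarith
  -- the remainder
  set E := ∑ j ∈ s, w j * (Real.exp (θ * X j) - (1 + θ * X j + (θ * X j) ^ 2 / 2)) with hE
  have hsum : ∑ j ∈ s, w j * Real.exp (θ * X j) = W + θ ^ 2 / 2 * V + E := by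
    have e1 : ∀ j, w j * Real.exp (θ * X j) = w j + θ * (w j * X j) + θ ^ 2 / 2 * (w j * X j ^ 2) +
        w j * (Real.exp (θ * X j) - (1 + θ * X j + (θ * X j) ^ 2 / 2)) := fun j => by ring
    simp_rw [e1]
    rw [Finset.sum_add_distrib, Finset.sum_add_distrib, Finset.sum_add_distrib, ← Finset.mul_sum, ← Finset.mul_sum,
      hW, hmean, mul_zero, add_zero]
  have hθ2 : 0 ≤ θ ^ 2 := sq_nonneg θ
  have hEb : |E| ≤ ε / 36 * (θ ^ 2 * V) := by
    have h1 : ∀ j ∈ s, |w j * (Real.exp (θ * X j) - (1 + θ * X j + (θ * X j) ^ 2 / 2))| ≤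
        ε / 36 * (θ ^ 2 * (w j * X j ^ 2)) := by
      intro j hj
      have hy : |θ * X j| ≤ ε / 8 := by
        rw [abs_mul]
        exact (mul_le_mul_of_nonneg_left (hB j hj) (abs_nonneg θ)).trans hθ
      have h2 := exp3 (x := θ * X j) (hy.trans (by linarith))
      have h3 : |θ * X j| ^ 3 ≤ ε / 8 * (θ * X j) ^ 2 := by
        rw [pow_succ, sq_abs, mul_comm]
        exact mul_le_mul_of_nonneg_right hy (sq_nonneg _)
      rw [abs_mul, abs_of_nonneg (hw j hj)]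
      calc w j * |Real.exp (θ * X j) - (1 + θ * X j + (θ * X j) ^ 2 / 2)|
          ≤ w j * (2 / 9 * (ε / 8 * (θ * X j) ^ 2)) := by
            apply mul_le_mul_of_nonneg_left _ (hw j hj)
            linarith
        _ = ε / 36 * (θ ^ 2 * (w j * X j ^ 2)) := by ring
    refine (Finset.abs_sum_le_sum_abs _ _).trans ((Finset.sum_le_sum h1).trans (le_of_eq ?_))
    rw [← Finset.mul_sum, ← Finset.mul_sum]
  obtain ⟨hE1, hE2⟩ := abs_le.mp hEb
  have hE3 : ε / 36 * (θ ^ 2 * V) ≤ ε / 18 * (θ ^ 2 * (L * W)) := by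
    have := mul_le_mul_of_nonneg_left hVle hθ2
    have := mul_le_mul_of_nonneg_left this (show 0 ≤ ε / 36 by positivity)
    linarith
  -- size of `θ² L`
  have hθa : |θ| ≤ ε / 8 := by
    have : |θ| * 1 ≤ |θ| * B := mul_le_mul_of_nonneg_left hB1 (abs_nonneg θ)
    linarith
  have hx : θ ^ 2 * L ≤ ε ^ 2 / 64 := by
    calc θ ^ 2 * L = |θ| * (|θ| * L) := by rw [← sq_abs]; ring
      _ ≤ (ε / 8) * (ε / 8) := by
        apply mul_le_mul hθa _ (by positivity) (by positivity)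
        exact (mul_le_mul_of_nonneg_left hBL (abs_nonneg θ)).trans hθ
      _ = _ := by ring
  set x := θ ^ 2 * L with hxd
  have hx0 : 0 ≤ x := by positivity
  have hLWx : θ ^ 2 * (L * W) = W * x := by rw [hxd]; ring
  have hVa : θ ^ 2 / 2 * V ≤ W * ((Q + ε) * x / 2) := by
    have : θ ^ 2 / 2 * V ≤ θ ^ 2 / 2 * ((Q + ε) * (L * W)) := by
      apply mul_le_mul_of_nonneg_left _ (by positivity)
      linarith
    calc θ ^ 2 / 2 * V ≤ θ ^ 2 / 2 * ((Q + ε) * (L * W)) := this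
      _ = _ := by rw [hxd]; ring
  have hVb : W * ((Q - ε) * x / 2) ≤ θ ^ 2 / 2 * V := by
    have : θ ^ 2 / 2 * ((Q - ε) * (L * W)) ≤ θ ^ 2 / 2 * V := by
      apply mul_le_mul_of_nonneg_left _ (by positivity)
      linarith
    calc W * ((Q - ε) * x / 2) = θ ^ 2 / 2 * ((Q - ε) * (L * W)) := by rw [hxd]; ring
      _ ≤ _ := this
  rw [hLWx] at hE3
  rw [hsum]
  constructor
  · set a := (Q - 2 * ε) * θ ^ 2 * L / 2 with ha
    have ha' : a = (Q - 2 * ε) * x / 2 := by rw [ha, hxd]; ring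
    have ha1 : |a| ≤ x := by
      rw [ha', abs_le]
      constructor <;> nlinarith
    have hx64 : x ≤ 1 / 64 := by nlinarith
    have h1 := Real.abs_exp_sub_one_sub_id_le (x := a) (by linarith)
    have h2 := (abs_le.mp h1).2
    have h3 : a ^ 2 ≤ x * (ε / 64) := by
      rw [← sq_abs]
      have h4 : x ≤ ε / 64 := by nlinarith
      calc |a| ^ 2 = |a| * |a| := by ring
        _ ≤ x * (ε / 64) := mul_le_mul ha1 (ha1.trans h4) (abs_nonneg _) hx0
    have h5 : Real.exp a ≤ 1 + (Q - 2 * ε) * x / 2 + x * (ε / 64) := by linarith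
    have h6 : W * Real.exp a ≤ W * (1 + (Q - 2 * ε) * x / 2 + x * (ε / 64)) := mul_le_mul_of_nonneg_left h5 hW0.le
    have h7 : 0 ≤ W * (x * ε) := by positivity
    nlinarith
  · have h1 := Real.add_one_le_exp ((Q + 2 * ε) * θ ^ 2 * L / 2)
    have e1 : (Q + 2 * ε) * θ ^ 2 * L / 2 = (Q + 2 * ε) * x / 2 := by rw [hxd]; ring
    rw [e1] at h1 ⊢
    have h6 := mul_le_mul_of_nonneg_left h1 hW0.le
    have h7 : 0 ≤ W * (x * ε) := by positivity
    nlinarith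

end Pool.Agent.Helper53.KD
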